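import Mathlib

/-!
# Every sparse graph has a matching cut

A loopless multigraph on `u ≥ 2` vertices with at most `3 u - 4` edges has a nontrivial cut whose
edges can be oriented with indegree at most one.  Applied to the doubled graph this gives the
theorem of Bonsma, Farley and Proskurowski: a graph with `n ≥ 2` vertices and `m` edges,
`2 m ≤ 3 n - 4`, has a matching cut.
-/

namespace Pool.Agent.Helper57.Rs

open Finset Classical

variable {V : Type*}

/-- A nontrivial cut `X` of `S` and a choice `f x` of the partner of every vertex `x`, such that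
the weight of every cut pair is at most the number of its two ends that chose the other one. -/
def OCut (S : Finset V) (w : V → V → ℕ) : Prop :=
  ∃ X : Finset V, X ⊆ S ∧ X.Nonempty ∧ (S \ X).Nonempty ∧ ∃ f : V → V,
    ∀ x ∈ X, ∀ y ∈ S \ X,
      w x y ≤ (if f x = y then 1 else 0) + (if f y = x then 1 else 0)

/-- The same with the side given by a membership predicate. -/
def Fits (S X : Finset V) (w : V → V → ℕ) (f : V → V) : Prop :=
  ∀ x ∈ S, ∀ y ∈ S, (x ∈ X ↔ y ∉ X) →
    w x y ≤ (if f x = y then 1 else 0) + (if f y = x then 1 else 0)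

theorem ocut_of_fits {S X : Finset V} {w : V → V → ℕ} {f : V → V} (hX : X ⊆ S)
    (h1 : X.Nonempty) (h2 : (S \ X).Nonempty) (h : Fits S X w f) : OCut S w := by
  refine ⟨X, hX, h1, h2, f, ?_⟩
  intro x hx y hy
  rw [mem_sdiff] at hy
  exact h x (hX hx) y hy.1 ⟨fun _ => hy.2, fun _ => hx⟩

theorem fits_of_ocut {S : Finset V} {w : V → V → ℕ} (hs : ∀ x y, w x y = w y x)
    (h : OCut S w) : ∃ X : Finset V, ∃ f : V → V, X ⊆ S ∧ X.Nonempty ∧ (S \ X).Nonempty ∧
      Fits S X w f := by
  obtain ⟨X, hX, h1, h2, f, hf⟩ := h
  refine ⟨X, f, hX, h1, h2, ?_⟩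
  intro x hx y hy hxy
  by_cases hxX : x ∈ X
  · exact hf x hxX y (mem_sdiff.2 ⟨hy, hxy.1 hxX⟩)
  · have hyX : y ∈ X := by
      by_contra hyX
      exact hxX (hxy.2 hyX)
    have := hf y hyX x (mem_sdiff.2 ⟨hx, hxX⟩)
    rw [hs x y]
    omega

/-- Total weight (every edge counted twice). -/
def tot (S : Finset V) (w : V → V → ℕ) : ℕ := ∑ x ∈ S, ∑ y ∈ S, w x y

/-- Degree. -/
def dg (S : Finset V) (w : V → V → ℕ) (x : V) : ℕ := ∑ y ∈ S, w x y

theorem tot_erase {S : Finset V} {w : V → V → ℕ} (hs : ∀ x y, w x y = w y x)
    (h0 : ∀ x, w x x = 0) {v : V} (hv : v ∈ S) :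
    tot S w = tot (S.erase v) w + 2 * dg S w v := by
  unfold tot dg
  rw [← add_sum_erase S _ hv]
  have : ∀ x ∈ S.erase v, ∑ y ∈ S, w x y = w x v + ∑ y ∈ S.erase v, w x y := by
    intro x _
    rw [← add_sum_erase S _ hv]
  rw [sum_congr rfl this, sum_add_distrib]
  have h2 : ∑ y ∈ S, w v y = ∑ x ∈ S.erase v, w x v := by
    rw [← add_sum_erase S _ hv, h0, zero_add]
    exact sum_congr rfl (fun x _ => hs v x)
  rw [← h2]
  ring

theorem dg_erase {S : Finset V} {w : V → V → ℕ} {p : V} (hp : p ∈ S) (x : V) :
    dg S w x = w x p + dg (S.erase p) w x := by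
  unfold dg
  rw [← add_sum_erase S _ hp]

theorem star {S : Finset V} {w : V → V → ℕ} {v : V} (hv : v ∈ S)
    (h2 : (S.erase v).Nonempty) (hm : ∀ y ∈ S.erase v, w v y ≤ 2)
    (hu : ∀ y ∈ S.erase v, ∀ z ∈ S.erase v, w v y = 2 → w v z = 2 → y = z) : OCut S w := by
  have hne : (S \ {v}).Nonempty := by
    obtain ⟨y, hy⟩ := h2
    rw [mem_erase] at hy
    exact ⟨y, by rw [mem_sdiff, mem_singleton]; exact ⟨hy.2, hy.1⟩⟩
  by_cases hd : ∃ y0 ∈ S.erase v, w v y0 = 2
  · obtain ⟨y0, hy0, hw0⟩ := hd
    refine ⟨{v}, by simpa using hv, ⟨v, by simp⟩, hne, fun y => if y = v then y0 else v, ?_⟩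
    intro x hx y hy
    rw [mem_singleton] at hx
    subst hx
    rw [mem_sdiff, mem_singleton] at hy
    have hy' : y ∈ S.erase x := mem_erase.2 ⟨hy.2, hy.1⟩
    simp only [if_true, if_neg hy.2]
    by_cases hy2 : w x y = 2
    · rw [hu y hy' y0 hy0 hy2 hw0] at *
      simp [hw0]
    · have := hm y hy'
      omega
  · push Not at hd
    refine ⟨{v}, by simpa using hv, ⟨v, by simp⟩, hne, fun y => v, ?_⟩
    intro x hx y hy
    rw [mem_singleton] at hx
    subst hx
    rw [mem_sdiff, mem_singleton] at hy
    have hy' : y ∈ S.erase x := mem_erase.2 ⟨hy.2, hy.1⟩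
    have h1 := hm y hy'
    have h3 := hd y hy'
    simp only [if_true]
    omega

/-- Contraction of `q` into `p`. -/
noncomputable def con (w : V → V → ℕ) (p q : V) (x y : V) : ℕ :=
  if x = y then 0 else if x = p then w p y + w q y else if y = p then w x p + w x q else w x y

theorem con_symm {w : V → V → ℕ} (hs : ∀ x y, w x y = w y x) (p q x y : V) :
    con w p q x y = con w p q y x := by
  unfold con
  by_cases hxy : x = y
  · subst hxy; rfl
  · have hyx : ¬ y = x := fun h => hxy h.symm
    rw [if_neg hxy, if_neg hyx]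
    by_cases hx : x = p
    · subst hx
      rw [if_pos rfl, if_neg hyx, if_pos rfl, hs x y, hs q y]
    · by_cases hy : y = p
      · subst hy
        rw [if_neg hx, if_pos rfl, if_pos rfl, hs x y, hs x q]
      · rw [if_neg hx, if_neg hy, if_neg hy, if_neg hx, hs x y]

theorem con_tot {S : Finset V} {w : V → V → ℕ} (hs : ∀ x y, w x y = w y x)
    (h0 : ∀ x, w x x = 0) {p q : V} (hp : p ∈ S) (hq : q ∈ S) (hpq : p ≠ q) :
    tot S w = tot (S.erase q) (con w p q) + 2 * w p q := by
  have hp' : p ∈ S.erase q := mem_erase.2 ⟨hpq, hp⟩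
  rw [tot_erase hs h0 hq, tot_erase hs h0 hp',
    tot_erase (con_symm hs p q) (fun x => by unfold con; rw [if_pos rfl]) hp']
  have h1 : tot ((S.erase q).erase p) (con w p q) = tot ((S.erase q).erase p) w := by
    unfold tot
    refine sum_congr rfl (fun x hx => sum_congr rfl (fun y hy => ?_))
    rw [mem_erase] at hx hy
    unfold con
    by_cases hxy : x = y
    · subst hxy; rw [if_pos rfl, h0]
    · rw [if_neg hxy, if_neg hx.1, if_neg hy.1]
  have h2 : dg (S.erase q) (con w p q) p
      = dg ((S.erase q).erase p) w p + dg ((S.erase q).erase p) w q := by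
    rw [dg_erase hp']
    have : con w p q p p = 0 := by unfold con; rw [if_pos rfl]
    rw [this, zero_add]
    unfold dg
    rw [← sum_add_distrib]
    refine sum_congr rfl (fun y hy => ?_)
    rw [mem_erase] at hy
    unfold con
    rw [if_neg (fun h => hy.1 h.symm), if_pos rfl]
  have h3 : dg S w q = w q p + dg ((S.erase q).erase p) w q := by
    rw [dg_erase hq, dg_erase hp', h0, zero_add]
  have h4 : dg (S.erase q) w p = dg ((S.erase q).erase p) w p := by
    rw [dg_erase hp', h0, zero_add]
  rw [h1, h2, h3, h4, hs q p]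
  ring

theorem con_cut {S : Finset V} {w : V → V → ℕ} (hs : ∀ x y, w x y = w y x)
    {p q : V} (hp : p ∈ S) (hq : q ∈ S) (hpq : p ≠ q)
    (h : OCut (S.erase q) (con w p q)) : OCut S w := by
  obtain ⟨X, f, hX, hX1, hX2, hf⟩ := fits_of_ocut (con_symm hs p q) h
  have hqX : q ∉ X := fun h => by simpa using hX h
  obtain ⟨Y, hY⟩ : ∃ Y : Finset V, ∀ x, x ∈ Y ↔ (x ∈ X ∨ (x = q ∧ p ∈ X)) := by
    by_cases hpX : p ∈ X
    · exact ⟨insert q X, fun x => by rw [mem_insert]; tauto⟩
    · exact ⟨X, fun x => by tauto⟩
  have hYS : Y ⊆ S := by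
    intro x hx
    rcases (hY x).1 hx with h | ⟨rfl, _⟩
    · exact mem_of_mem_erase (hX h)
    · exact hq
  obtain ⟨g, hgp, hgq, hg1, hg2⟩ : ∃ g : V → V, g p = f p ∧ g q = f p ∧
      (∀ x, x ≠ p → x ≠ q → f x ≠ p → g x = f x) ∧
      (∀ x, x ≠ p → x ≠ q → f x = p →
        ((w x q ≤ (if f p = x then 1 else 0)) → g x = p) ∧
        (¬ (w x q ≤ (if f p = x then 1 else 0)) → g x = q)) := by
    refine ⟨fun x => if x = p ∨ x = q then f p else if f x = p then
      (if w x q ≤ (if f p = x then 1 else 0) then p else q) else f x, ?_, ?_, ?_, ?_⟩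
    · simp
    · simp
    · intro x h1 h2 h3
      simp [h1, h2, h3]
    · intro x h1 h2 h3
      constructor
      · intro h4
        simp only [h1, h2, or_self, if_false, h3, if_true, if_pos h4]
      · intro h4
        simp only [h1, h2, or_self, if_false, h3, if_true, if_neg h4]
  have hfit : Fits S Y w g := by
    -- the basic estimate for a vertex `x` against the pair `p, q`
    have key : ∀ x ∈ S, x ≠ p → x ≠ q → (x ∈ X ↔ p ∉ X) →
        w x p ≤ (if g x = p then 1 else 0) + (if g p = x then 1 else 0) ∧
        w x q ≤ (if g x = q then 1 else 0) + (if g q = x then 1 else 0) := by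
      intro x hxS hxp hxq hside
      have h1 := hf x (mem_erase.2 ⟨hxq, hxS⟩) p (mem_erase.2 ⟨hpq, hp⟩) hside
      have h2 : con w p q x p = w x p + w x q := by
        unfold con
        rw [if_neg hxp, if_neg hxp, if_pos rfl]
      rw [h2] at h1
      rw [hgp, hgq]
      by_cases hfx : f x = p
      · rw [if_pos hfx] at h1
        obtain ⟨h3, h4⟩ := hg2 x hxp hxq hfx
        by_cases h5 : w x q ≤ (if f p = x then 1 else 0)
        · rw [h3 h5, if_pos rfl, if_neg hpq]
          omega
        · rw [h4 h5, if_neg (fun h => hpq h.symm), if_pos rfl]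
          split_ifs at h1 h5 ⊢ <;> omega
      · rw [if_neg hfx] at h1
        omega
    have hYp : p ∈ Y ↔ p ∈ X := by
      rw [hY]
      constructor
      · rintro (h | ⟨h, _⟩)
        · exact h
        · exact absurd h hpq
      · exact fun h => Or.inl h
    have hYq : q ∈ Y ↔ p ∈ X := by
      rw [hY]
      constructor
      · rintro (h | ⟨_, h⟩)
        · exact absurd h hqX
        · exact h
      · exact fun h => Or.inr ⟨rfl, h⟩
    have hYo : ∀ x, x ≠ q → (x ∈ Y ↔ x ∈ X) := by
      intro x hx
      rw [hY]
      tauto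
    intro x hx y hy hxy
    by_cases hxp : x = p
    · subst hxp
      by_cases hyq : y = q
      · subst hyq
        rw [hYp, hYq] at hxy
        tauto
      · have hyx : y ≠ x := by
          rintro rfl
          tauto
        rw [hYp, hYo y hyq] at hxy
        have := (key y hy hyx hyq (by tauto)).1
        rw [hs x y]
        omega
    · by_cases hxq : x = q
      · subst hxq
        by_cases hyp : y = p
        · subst hyp
          rw [hYp, hYq] at hxy
          tauto
        · have hyx : y ≠ x := by
            rintro rfl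
            tauto
          rw [hYq, hYo y hyx] at hxy
          have := (key y hy hyp hyx (by tauto)).2
          rw [hs x y]
          omega
      · by_cases hyp : y = p
        · subst hyp
          rw [hYp, hYo x hxq] at hxy
          exact (key x hx hxp hxq (by tauto)).1
        · by_cases hyq : y = q
          · subst hyq
            rw [hYq, hYo x hxq] at hxy
            exact (key x hx hxp hxq (by tauto)).2
          · rw [hYo x hxq, hYo y hyq] at hxy
            have hne : x ≠ y := by
              rintro rfl
              tauto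
            have h1 := hf x (mem_erase.2 ⟨hxq, hx⟩) y (mem_erase.2 ⟨hyq, hy⟩) hxy
            have h2 : con w p q x y = w x y := by
              unfold con
              rw [if_neg hne, if_neg hxp, if_neg hyp]
            rw [h2] at h1
            have h3 : f x = y → g x = y := by
              intro h
              rw [hg1 x hxp hxq (by rw [h]; exact hyp)]
              exact h
            have h4 : f y = x → g y = x := by
              intro h
              rw [hg1 y hyp hyq (by rw [h]; exact hxp)]
              exact h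
            split_ifs at h1 ⊢ <;> first | omega | tauto
  refine ocut_of_fits hYS ?_ ?_ hfit
  · obtain ⟨x, hx⟩ := hX1
    exact ⟨x, (hY x).2 (Or.inl hx)⟩
  · obtain ⟨x, hx⟩ := hX2
    rw [mem_sdiff, mem_erase] at hx
    refine ⟨x, mem_sdiff.2 ⟨hx.1.2, ?_⟩⟩
    intro h
    rcases (hY x).1 h with h | ⟨h, _⟩
    · exact hx.2 h
    · exact hx.1.1 h

/-- Replace a vertex by `t` edges between `x` and `y`. -/
noncomputable def rep (w : V → V → ℕ) (x y : V) (t : ℕ) (a b : V) : ℕ :=
  w a b + (if (a = x ∧ b = y) ∨ (a = y ∧ b = x) then t else 0)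

theorem rep_symm {w : V → V → ℕ} (hs : ∀ x y, w x y = w y x) (x y : V) (t : ℕ) (a b : V) :
    rep w x y t a b = rep w x y t b a := by
  unfold rep
  rw [hs a b]
  congr 1
  by_cases h : (a = x ∧ b = y) ∨ (a = y ∧ b = x)
  · rw [if_pos h, if_pos (by tauto)]
  · rw [if_neg h, if_neg (by tauto)]

theorem rep_diag {w : V → V → ℕ} (h0 : ∀ x, w x x = 0) {x y : V} (hxy : x ≠ y) (t : ℕ) (a : V) :
    rep w x y t a a = 0 := by
  unfold rep
  rw [h0, if_neg]
  rintro (⟨h1, h2⟩ | ⟨h1, h2⟩)
  · exact hxy (h1.symm.trans h2)
  · exact hxy (h2.symm.trans h1)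

theorem rep_tot {S : Finset V} {w : V → V → ℕ} {x y : V} (hx : x ∈ S) (hy : y ∈ S)
    (hxy : x ≠ y) (t : ℕ) : tot S (rep w x y t) = tot S w + 2 * t := by
  unfold tot rep
  have h1 : ∀ a ∈ S, ∑ b ∈ S, (w a b + if (a = x ∧ b = y) ∨ (a = y ∧ b = x) then t else 0)
      = ∑ b ∈ S, w a b + ((if a = x then t else 0) + (if a = y then t else 0)) := by
    intro a _
    rw [sum_add_distrib]
    congr 1
    by_cases hax : a = x
    · subst hax
      rw [if_pos rfl, if_neg hxy, add_zero]
      have : ∀ b ∈ S, (if (a = a ∧ b = y) ∨ (a = y ∧ b = a) then t else 0)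
          = if b = y then t else 0 := by
        intro b _
        by_cases hb : b = y
        · rw [if_pos (Or.inl ⟨rfl, hb⟩), if_pos hb]
        · rw [if_neg, if_neg hb]
          rintro (h | h)
          · exact hb h.2
          · exact hxy h.1
      rw [sum_congr rfl this, sum_ite_eq' S y, if_pos hy]
    · by_cases hay : a = y
      · subst hay
        rw [if_neg hax, if_pos rfl, zero_add]
        have : ∀ b ∈ S, (if (a = x ∧ b = a) ∨ (a = a ∧ b = x) then t else 0)
            = if b = x then t else 0 := by
          intro b _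
          by_cases hb : b = x
          · rw [if_pos (Or.inr ⟨rfl, hb⟩), if_pos hb]
          · rw [if_neg, if_neg hb]
            rintro (h | h)
            · exact hax h.1
            · exact hb h.2
        rw [sum_congr rfl this, sum_ite_eq' S x, if_pos hx]
      · rw [if_neg hax, if_neg hay, add_zero]
        refine sum_eq_zero (fun b _ => ?_)
        rw [if_neg]
        tauto
  rw [sum_congr rfl h1, sum_add_distrib, sum_add_distrib, sum_ite_eq' S x, sum_ite_eq' S y,
    if_pos hx, if_pos hy]
  ring

/-- Lifting a cut through the replacement of `v`: `x` and `y` are doubled neighbours of `v`, every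
other neighbour `z` has weight at most one, there is at most one of them, and `t = 1`, or `t = 2`. -/
theorem rep_cut {S : Finset V} {w : V → V → ℕ} (hs : ∀ x y, w x y = w y x)
    {v x y : V} (hv : v ∈ S) (hx : x ∈ S.erase v) (hy : y ∈ S.erase v) (hxy : x ≠ y)
    (hvx : w v x ≤ 2) (hvy : w v y ≤ 2) {z : V} {t : ℕ} (hz : ∀ a ∈ S.erase v, a ≠ x → a ≠ y →
      w v a ≤ (if z = a ∧ t = 2 then 1 else 0)) (ht : 1 ≤ t)
    (h : OCut (S.erase v) (rep w x y t)) : OCut S w := by
  obtain ⟨X, f, hX, hX1, hX2, hf⟩ := fits_of_ocut (rep_symm hs x y t) h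
  have hvX : v ∉ X := fun h => by simpa using hX h
  -- a set `Y` (with `v` or without `v`) and a choice `g`
  have build : ∀ (b : Prop) (fv : V) (g : V → V),
      (∀ a ∈ S.erase v, (a ∈ X ↔ ¬ b) → w v a ≤ (if fv = a then 1 else 0)
        + (if g a = v then 1 else 0)) →
      (∀ a ∈ S.erase v, ∀ c ∈ S.erase v, (a ∈ X ↔ c ∉ X) →
        w a c ≤ (if g a = c then 1 else 0) + (if g c = a then 1 else 0)) → OCut S w := by
    intro b fv g h1 h2
    obtain ⟨Y, hY⟩ : ∃ Y : Finset V, ∀ a, a ∈ Y ↔ (a ∈ X ∨ (a = v ∧ b)) := by
      by_cases hb : b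
      · exact ⟨insert v X, fun a => by rw [mem_insert]; tauto⟩
      · exact ⟨X, fun a => by tauto⟩
    have hYv : v ∈ Y ↔ b := by rw [hY]; tauto
    have hYo : ∀ a, a ≠ v → (a ∈ Y ↔ a ∈ X) := by
      intro a ha
      rw [hY]; tauto
    have hYS : Y ⊆ S := by
      intro a ha
      rcases (hY a).1 ha with h | ⟨rfl, _⟩
      · exact mem_of_mem_erase (hX h)
      · exact hv
    refine ocut_of_fits (f := fun a => if a = v then fv else g a) hYS ?_ ?_ ?_
    · obtain ⟨a, ha⟩ := hX1
      exact ⟨a, (hY a).2 (Or.inl ha)⟩
    · obtain ⟨a, ha⟩ := hX2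
      rw [mem_sdiff, mem_erase] at ha
      refine ⟨a, mem_sdiff.2 ⟨ha.1.2, ?_⟩⟩
      intro h
      exact ha.2 ((hYo a ha.1.1).1 h)
    · intro a ha c hc hac
      by_cases hav : a = v
      · subst hav
        by_cases hcv : c = a
        · subst hcv; tauto
        · rw [hYv, hYo c hcv] at hac
          have := h1 c (mem_erase.2 ⟨hcv, hc⟩) (by tauto)
          simp only [if_true, if_neg hcv]
          exact this
      · by_cases hcv : c = v
        · subst hcv
          rw [hYv, hYo a hav] at hac
          have := h1 a (mem_erase.2 ⟨hav, ha⟩) (by tauto)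
          simp only [if_true, if_neg hav]
          rw [hs a c]
          omega
        · rw [hYo c hcv, hYo a hav] at hac
          simp only [if_neg hav, if_neg hcv]
          exact h2 a (mem_erase.2 ⟨hav, ha⟩) c (mem_erase.2 ⟨hcv, hc⟩) hac
  have old : ∀ a ∈ S.erase v, ∀ c ∈ S.erase v, (a ∈ X ↔ c ∉ X) →
      w a c ≤ (if f a = c then 1 else 0) + (if f c = a then 1 else 0) := by
    intro a ha c hc hac
    have := hf a ha c hc hac
    unfold rep at this
    omega
  -- the case of different sides, with the slot of `x` used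
  have half : ∀ x ∈ S.erase v, ∀ y ∈ S.erase v, x ≠ y → (x ∈ X ↔ y ∉ X) → f x = y →
      w v x ≤ 2 →
      (∀ a ∈ S.erase v, a ≠ x → (a ∈ X ↔ y ∉ X) → w v a = 0) →
      w x y + t ≤ (if f x = y then 1 else 0) + (if f y = x then 1 else 0) →
      OCut S w := by
    intro x hx y hy hxy hside hfx hvx h0 hw
    refine build (y ∈ X) x (fun a => if a = x then v else f a) ?_ ?_
    · intro a ha hab
      by_cases hax : a = x
      · subst hax
        simp only [if_true]
        omega
      · rw [h0 a ha hax hab]
        exact Nat.zero_le _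
    · intro a ha c hc hac
      have h1 := old a ha c hc hac
      have hav : a ≠ v := (mem_erase.1 ha).1
      have hcv : c ≠ v := (mem_erase.1 hc).1
      rw [if_pos hfx] at hw
      by_cases hax : a = x
      · subst hax
        by_cases hca : c = a
        · subst hca; tauto
        · simp only [if_true, if_neg hca, if_neg (fun h : v = c => hcv h.symm)]
          by_cases hcy : c = y
          · subst hcy
            omega
          · rw [if_neg (fun h : f a = c => hcy (h.symm.trans hfx))] at h1
            exact h1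
      · by_cases hcx : c = x
        · subst hcx
          simp only [if_true, if_neg hax, if_neg (fun h : v = a => hav h.symm)]
          by_cases hay : a = y
          · subst hay
            rw [hs a c]
            omega
          · rw [if_neg (fun h : f c = a => hay (h.symm.trans hfx))] at h1
            exact h1
        · simp only [if_neg hax, if_neg hcx]
          exact h1
  have hrep : (x ∈ X ↔ y ∉ X) →
      w x y + t ≤ (if f x = y then 1 else 0) + (if f y = x then 1 else 0) := by
    intro hside
    have := hf x hx y hy hside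
    unfold rep at this
    rw [if_pos (Or.inl ⟨rfl, rfl⟩)] at this
    exact this
  by_cases hside : x ∈ X ↔ y ∉ X
  · have hw := hrep hside
    by_cases ht2 : t = 2
    · subst ht2
      have h12 : f x = y ∧ f y = x ∧ w x y = 0 := by
        split_ifs at hw with h1 h2 h2
        · exact ⟨h1, h2, by omega⟩
        all_goals omega
      obtain ⟨hfx, hfy, hwxy⟩ := h12
      by_cases hzy : z ∈ X ↔ y ∈ X
      · refine half x hx y hy hxy hside hfx hvx ?_ hw
        intro a ha hax hay
        have hay' : a ≠ y := by rintro rfl; tauto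
        have := hz a ha hax hay'
        rw [if_neg] at this
        · omega
        · rintro ⟨rfl, _⟩; tauto
      · refine half y hy x hx hxy.symm (by tauto) hfy hvy ?_ ?_
        · intro a ha hay hax
          have hax' : a ≠ x := by rintro rfl; tauto
          have := hz a ha hax' hay
          rw [if_neg] at this
          · omega
          · rintro ⟨rfl, _⟩; tauto
        · rw [hs y x]
          omega
    · have hz' : ∀ a ∈ S.erase v, a ≠ x → a ≠ y → w v a = 0 := by
        intro a ha h1 h2
        have := hz a ha h1 h2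
        rw [if_neg (fun h => ht2 h.2)] at this
        omega
      by_cases hfx : f x = y
      · refine half x hx y hy hxy hside hfx hvx ?_ hw
        intro a ha hax hay
        exact hz' a ha hax (by rintro rfl; tauto)
      · have hfy : f y = x := by
          by_contra hfy
          rw [if_neg hfx, if_neg hfy] at hw
          omega
        refine half y hy x hx hxy.symm (by tauto) hfy hvy ?_ ?_
        · intro a ha hay hax
          exact hz' a ha (by rintro rfl; tauto) hay
        · rw [hs y x]
          omega
  · refine build (x ∈ X) z f ?_ old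
    intro a ha hab
    have hax : a ≠ x := by rintro rfl; tauto
    have hay : a ≠ y := by rintro rfl; tauto
    have := hz a ha hax hay
    split_ifs at this ⊢ <;> first | omega | tauto

/-- A loopless multigraph on `u ≥ 2` vertices with at most `3 u - 4` edges has a nontrivial cut
whose edges can be oriented with indegree at most one. -/
theorem ocut : ∀ (n : ℕ) (S : Finset V) (w : V → V → ℕ), S.card = n → 2 ≤ n →
    (∀ x y, w x y = w y x) → (∀ x, w x x = 0) → tot S w + 8 ≤ 6 * n → OCut S w := by
  intro n
  induction n with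
  | zero => intro S w _ h; omega
  | succ n ih =>
    intro S w hc h2 hs h0 hT
    by_cases hbig : ∃ p ∈ S, ∃ q ∈ S, p ≠ q ∧ 3 ≤ w p q
    · obtain ⟨p, hp, q, hq, hpq, h3⟩ := hbig
      have hct := con_tot hs h0 hp hq hpq
      refine con_cut hs hp hq hpq (ih (S.erase q) (con w p q) ?_ ?_ (con_symm hs p q) ?_ ?_)
      · rw [card_erase_of_mem hq, hc]; rfl
      · by_contra hn
        have : n = 1 := by omega
        subst this
        omega
      · intro x; unfold con; rw [if_pos rfl]
      · omega
    · push Not at hbig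
      have hdeg : ∃ v ∈ S, dg S w v ≤ 5 := by
        by_contra hno
        push Not at hno
        have : S.card * 6 ≤ tot S w := by
          unfold tot
          rw [← smul_eq_mul]
          exact card_nsmul_le_sum S _ 6 (fun v hv => hno v hv)
        omega
      obtain ⟨v, hv, hd⟩ := hdeg
      have hle2 : ∀ y ∈ S.erase v, w v y ≤ 2 := by
        intro y hy
        rw [mem_erase] at hy
        have := hbig v hv y hy.2 hy.1.symm
        omega
      by_cases hu : ∀ y ∈ S.erase v, ∀ z ∈ S.erase v, w v y = 2 → w v z = 2 → y = z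
      · refine star hv ?_ hle2 hu
        rw [← card_pos, card_erase_of_mem hv]
        omega
      · push Not at hu
        obtain ⟨x, hx, y, hy, hwx, hwy, hxy⟩ := hu
        have hy' : y ∈ (S.erase v).erase x := mem_erase.2 ⟨hxy.symm, hy⟩
        have hdd : dg S w v = 4 + dg (((S.erase v).erase x).erase y) w v := by
          rw [dg_erase hv, dg_erase hx, dg_erase hy', h0, hwx, hwy]
          ring
        have htot := tot_erase hs h0 hv
        have hcard : (S.erase v).card = n := by
          rw [card_erase_of_mem hv, hc]; rfl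
        have hn2 : 2 ≤ n := by
          rw [← hcard]
          have : ({x, y} : Finset V) ⊆ S.erase v := by
            intro a ha
            rw [mem_insert, mem_singleton] at ha
            rcases ha with rfl | rfl
            · exact hx
            · exact hy
          calc 2 = ({x, y} : Finset V).card := (card_pair hxy).symm
            _ ≤ _ := card_le_card this
        obtain ⟨r, hr⟩ : ∃ r, r = dg (((S.erase v).erase x).erase y) w v := ⟨_, rfl⟩
        have hr1 : r ≤ 1 := by omega
        obtain ⟨z, hz⟩ : ∃ z : V, ∀ a ∈ S.erase v, a ≠ x → a ≠ y →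
            w v a ≤ (if z = a ∧ r + 1 = 2 then 1 else 0) := by
          by_cases hex : ∃ z ∈ ((S.erase v).erase x).erase y, w v z ≠ 0
          · obtain ⟨z, hz, hwz⟩ := hex
            refine ⟨z, ?_⟩
            intro a ha hax hay
            have ha' : a ∈ ((S.erase v).erase x).erase y :=
              mem_erase.2 ⟨hay, mem_erase.2 ⟨hax, ha⟩⟩
            have h1 := dg_erase (w := w) hz v
            by_cases haz : a = z
            · subst haz
              rw [if_pos ⟨rfl, by omega⟩]
              omega
            · have h2 := dg_erase (w := w) (mem_erase.2 ⟨haz, ha'⟩) v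
              omega
          · push Not at hex
            refine ⟨v, ?_⟩
            intro a ha hax hay
            rw [hex a (mem_erase.2 ⟨hay, mem_erase.2 ⟨hax, ha⟩⟩)]
            exact Nat.zero_le _
        refine rep_cut (t := r + 1) (z := z) hs hv hx hy hxy (hle2 x hx) (hle2 y hy) hz (by omega)
          (ih (S.erase v) (rep w x y (r + 1)) hcard hn2 (rep_symm hs x y _)
            (rep_diag h0 hxy _) ?_)
        rw [rep_tot hx hy hxy]
        omega

/-- The number of ordered adjacent pairs inside `S`, i.e. twice the number of edges. -/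
noncomputable def e2 (G : SimpleGraph V) (S : Finset V) : ℕ :=
  ∑ x ∈ S, ∑ y ∈ S, if G.Adj x y then 1 else 0

/-- `X` is a matching cut inside `S`. -/
def MC (G : SimpleGraph V) (S X : Finset V) : Prop :=
  ∀ u ∈ S, ∀ v ∈ S, ∀ w ∈ S, G.Adj u v → G.Adj u w → (u ∈ X ↔ v ∉ X) → (u ∈ X ↔ w ∉ X) → v = w

/-- **Bonsma, Farley, Proskurowski**: `2 m ≤ 3 n - 4` and `n ≥ 2` imply a matching cut. -/
theorem matching_cut (G : SimpleGraph V) (S : Finset V) (h2 : 2 ≤ S.card)
    (he : e2 G S + 4 ≤ 3 * S.card) :
    ∃ X : Finset V, X ⊆ S ∧ X.Nonempty ∧ (S \ X).Nonempty ∧ MC G S X := by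
  have hs : ∀ x y, (fun x y => if G.Adj x y then 2 else 0 : V → V → ℕ) x y
      = (fun x y => if G.Adj x y then 2 else 0 : V → V → ℕ) y x := by
    intro x y
    simp only [G.adj_comm x y]
  have ht : tot S (fun x y => if G.Adj x y then 2 else 0) = 2 * e2 G S := by
    unfold tot e2
    rw [mul_sum]
    refine sum_congr rfl (fun x _ => ?_)
    rw [mul_sum]
    refine sum_congr rfl (fun y _ => ?_)
    by_cases h : G.Adj x y <;> simp [h]
  have h := ocut S.card S (fun x y => if G.Adj x y then 2 else 0) rfl h2 hs
    (fun x => by simp) (by rw [ht]; omega)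
  obtain ⟨X, f, hX, h3, h4, hf⟩ := fits_of_ocut hs h
  refine ⟨X, hX, h3, h4, ?_⟩
  have key : ∀ u ∈ S, ∀ v ∈ S, G.Adj u v → (u ∈ X ↔ v ∉ X) → f u = v := by
    intro u hu v hv huv hside
    have := hf u hu v hv hside
    simp only [if_pos huv] at this
    by_contra hne
    rw [if_neg hne] at this
    split_ifs at this <;> omega
  intro u hu v hv w hw h5 h6 h7 h8
  rw [← key u hu v hv h5 h7, key u hu w hw h6 h8]

end Pool.Agent.Helper57.Rs
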