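import Pool.Agent.Helper57.Rs.Main

/-!
# Rainbow saturation numbers of cycles: final form
-/

namespace Pool.Agent.Helper57.Rs

open Finset Classical

/-- `G` is rainbow `C_k`-saturated. -/
def Saturated {V : Type*} (k : ℕ) (G : SimpleGraph V) : Prop :=
  RainbowFree k G ∧ ∀ u v, u ≠ v → ¬ G.Adj u v → ¬ RainbowFree k (G ⊔ SimpleGraph.edge u v)

/-- The rainbow saturation number of `C_k`. -/
noncomputable def satStar (k n : ℕ) : ℕ :=
  sInf {m | ∃ G : SimpleGraph (Fin n), Saturated k G ∧ G.edgeSet.ncard = m}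

variable {V : Type*}

theorem on_univ [Fintype V] (G : SimpleGraph V) : on G ((Finset.univ : Finset V) : Set V) = G := by
  ext u v
  rw [on_adj]
  simp

theorem e2_univ [Fintype V] (G : SimpleGraph V) :
    e2 G (Finset.univ : Finset V) = 2 * G.edgeSet.ncard := by
  have h1 := G.sum_degrees_eq_twice_card_edges
  have h2 : e2 G (Finset.univ : Finset V) = ∑ v, G.degree v := by
    unfold e2
    refine sum_congr rfl (fun v _ => ?_)
    rw [← SimpleGraph.card_neighborFinset_eq_degree, SimpleGraph.neighborFinset_eq_filter,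
      card_filter]
  rw [h2, h1, ← SimpleGraph.coe_edgeFinset, Set.ncard_coe_finset]

theorem saturated_bound [Fintype V] {k : ℕ} (hk : 4 ≤ k) (G : SimpleGraph V)
    (h : Saturated k G) : 3 * Fintype.card V ≤ 2 * G.edgeSet.ncard + 4 := by
  have : NeZero k := ⟨by omega⟩
  rcases Nat.eq_zero_or_pos (Fintype.card V) with h0 | h0
  · rw [h0]; omega
  · have := bound hk G (Fintype.card V) Finset.univ rfl h0
      ⟨by rw [on_univ]; exact h.1, fun u _ v _ huv hadj => by
        rw [on_univ]; exact h.2 u v huv hadj⟩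
    rw [e2_univ] at this
    exact this

theorem exists_saturated [Finite V] {k : ℕ} :
    ∃ G : SimpleGraph V, Saturated k G := by
  have hbot : RainbowFree k (⊥ : SimpleGraph V) := by
    refine ⟨fun _ => 0, fun u v w h => absurd h (by simp), ?_⟩
    rintro p ⟨_, h, _⟩
    have := h 0
    simp at this
  obtain ⟨G, _, hG⟩ := (Set.toFinite {G : SimpleGraph V | RainbowFree k G}).exists_le_maximal hbot
  refine ⟨G, hG.prop, ?_⟩
  intro u v huv hadj hfree
  have hle : G ≤ G ⊔ SimpleGraph.edge u v := le_sup_left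
  have := hG.le_of_ge hfree hle
  apply hadj
  apply this
  rw [SimpleGraph.sup_adj]
  right
  rw [SimpleGraph.edge_adj]
  exact ⟨Or.inl ⟨rfl, rfl⟩, huv⟩

theorem satStar_bound {k : ℕ} (hk : 4 ≤ k) (n : ℕ) :
    (∃ G : SimpleGraph (Fin n), Saturated k G ∧ G.edgeSet.ncard = satStar k n) ∧
      3 * n ≤ 2 * satStar k n + 4 := by
  have hne : {m | ∃ G : SimpleGraph (Fin n), Saturated k G ∧ G.edgeSet.ncard = m}.Nonempty := by
    obtain ⟨G, hG⟩ := exists_saturated (V := Fin n) (k := k)
    exact ⟨_, G, hG, rfl⟩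
  have hmem := Nat.sInf_mem hne
  refine ⟨hmem, ?_⟩
  obtain ⟨G, hG, hc⟩ := hmem
  have := saturated_bound hk G hG
  rw [hc, Fintype.card_fin] at this
  exact this

end Pool.Agent.Helper57.Rs
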