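import Pool.Agent.Helper57.Rs.Sc

/-!
# The lower bound `2 e ≥ 3 n - 4`
-/

namespace Pool.Agent.Helper57.Rs

open Finset Classical

variable {V : Type*}

/-- The number of edges between `X` and `Y`. -/
noncomputable def cr (G : SimpleGraph V) (X Y : Finset V) : ℕ :=
  ∑ x ∈ X, ∑ y ∈ Y, if G.Adj x y then 1 else 0

theorem cr_symm (G : SimpleGraph V) (X Y : Finset V) : cr G X Y = cr G Y X := by
  unfold cr
  rw [sum_comm]
  refine sum_congr rfl (fun y _ => sum_congr rfl (fun x _ => ?_))
  simp only [G.adj_comm x y]

theorem e2_split {G : SimpleGraph V} {S X : Finset V} (hX : X ⊆ S) :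
    e2 G S = e2 G X + e2 G (S \ X) + 2 * cr G X (S \ X) := by
  have h1 : e2 G S = cr G X X + cr G X (S \ X) + (cr G (S \ X) X + cr G (S \ X) (S \ X)) := by
    unfold e2 cr
    rw [← sum_sdiff hX]
    have h : ∀ x, ∑ y ∈ S, (if G.Adj x y then 1 else 0)
        = ∑ y ∈ X, (if G.Adj x y then 1 else 0) + ∑ y ∈ S \ X, (if G.Adj x y then 1 else 0) := by
      intro x
      rw [← sum_sdiff hX, add_comm]
    simp only [h, sum_add_distrib]
    ring
  rw [h1, cr_symm G (S \ X) X]
  unfold e2
  change cr G X X + cr G X (S \ X) + (cr G X (S \ X) + cr G (S \ X) (S \ X))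
    = cr G X X + cr G (S \ X) (S \ X) + 2 * cr G X (S \ X)
  ring

theorem cr_ge {G : SimpleGraph V} {X Y : Finset V} (h : ∀ u ∈ X, ∃ v ∈ Y, G.Adj u v) :
    X.card ≤ cr G X Y := by
  unfold cr
  rw [card_eq_sum_ones]
  refine sum_le_sum (fun u hu => ?_)
  obtain ⟨v, hv, huv⟩ := h u hu
  refine le_trans ?_ (single_le_sum (f := fun y => if G.Adj u y then 1 else 0)
    (fun _ _ => Nat.zero_le _) hv)
  simp [huv]

/-- A matching cut of a saturated graph, with the covered side named. -/
theorem covered_cut {k : ℕ} [NeZero k] {G : SimpleGraph V} {S : Finset V} (h : SC k G S)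
    (h2 : 2 ≤ S.card) (he : e2 G S + 4 ≤ 3 * S.card) :
    ∃ X : Finset V, X ⊆ S ∧ X.Nonempty ∧ (S \ X).Nonempty ∧ MC G S X ∧
      ∀ u ∈ X, ∃ v ∈ S \ X, G.Adj u v := by
  obtain ⟨X, hX, h3, h4, hm⟩ := matching_cut G S h2 he
  rcases h.cover hX hm with h5 | h5
  · exact ⟨X, hX, h3, h4, hm, h5⟩
  · refine ⟨S \ X, sdiff_subset, h4, ?_, hm.compl, ?_⟩
    · rwa [_root_.sdiff_sdiff_eq_self hX]
    · rwa [_root_.sdiff_sdiff_eq_self hX]

/-- **Every rainbow `C_k`-saturated graph, `k ≥ 4`, has at least `(3 n - 4) / 2` edges.** -/
theorem bound {k : ℕ} [NeZero k] (hk : 4 ≤ k) (G : SimpleGraph V) :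
    ∀ (n : ℕ) (S : Finset V), S.card = n → 1 ≤ n → SC k G S → 3 * n ≤ e2 G S + 4 := by
  intro n
  induction n using Nat.strong_induction_on with
  | _ n ih =>
    intro S hS hn hsc
    by_contra hlt
    push Not at hlt
    have h2 : 2 ≤ S.card := by
      by_contra h
      have : n = 1 := by omega
      subst this
      omega
    obtain ⟨X, hX, hX1, hY1, hm, hcov⟩ := covered_cut hsc h2 (by omega)
    have hXc : 1 ≤ X.card := card_pos.2 hX1
    have hYc : 1 ≤ (S \ X).card := card_pos.2 hY1
    have hsum : (S \ X).card + X.card = S.card := card_sdiff_add_card_eq_card hX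
    have scX : SC k G X := hsc.side hX hm
    have scY : SC k G (S \ X) := hsc.side sdiff_subset hm.compl
    have i1 := ih X.card (by omega) X rfl hXc scX
    have i2 := ih (S \ X).card (by omega) (S \ X) rfl hYc scY
    have hsp := e2_split (G := G) hX
    have hcr := cr_ge hcov
    have hX1' : X.card = 1 := by omega
    obtain ⟨x, rfl⟩ := card_eq_one.1 hX1'
    have hxS : x ∈ S := hX (mem_singleton_self x)
    obtain ⟨p, hpY, hxp⟩ := hcov x (mem_singleton_self x)
    have hpS : p ∈ S := (mem_sdiff.1 hpY).1
    have hpx : p ≠ x := fun h => (mem_sdiff.1 hpY).2 (by rw [h]; exact mem_singleton_self x)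
    have hxu : ∀ a ∈ S, G.Adj x a → a = p := by
      intro a ha hxa
      have hax : a ≠ x := by rintro rfl; exact G.loopless.irrefl _ hxa
      refine hm x hxS a ha p hpS hxa hxp ?_ ?_
      · simp [hax]
      · simp [hpx]
    -- the rest
    set Y := S \ {x} with hYdef
    have hxY : x ∉ Y := by simp [hYdef]
    have hY2 : 2 ≤ Y.card := by
      by_contra h
      have : Y.card = 1 := by omega
      omega
    obtain ⟨X2, hX2, hX21, hY21, hm2, hcov2⟩ := covered_cut scY hY2 (by omega)
    have hX2c : 1 ≤ X2.card := card_pos.2 hX21
    have hY2c : 1 ≤ (Y \ X2).card := card_pos.2 hY21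
    have hsum2 : (Y \ X2).card + X2.card = Y.card := card_sdiff_add_card_eq_card hX2
    have scX2 : SC k G X2 := scY.side hX2 hm2
    have scY2 : SC k G (Y \ X2) := scY.side sdiff_subset hm2.compl
    have i3 := ih X2.card (by omega) X2 rfl hX2c scX2
    have i4 := ih (Y \ X2).card (by omega) (Y \ X2) rfl hY2c scY2
    have hsp2 := e2_split (G := G) hX2
    have hcr2 := cr_ge hcov2
    have hX2S : X2 ⊆ S := hX2.trans sdiff_subset
    have hxX2 : x ∉ X2 := fun h => hxY (hX2 h)
    have hYS : ∀ a ∈ Y, a ∈ S := fun a ha => (mem_sdiff.1 ha).1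
    have hSY : ∀ a ∈ S, a ≠ x → a ∈ Y := fun a ha hax => by
      rw [hYdef, mem_sdiff, mem_singleton]; exact ⟨ha, hax⟩
    by_cases hcard : X2.card = 1
    · -- two leaves
      obtain ⟨y, rfl⟩ := card_eq_one.1 hcard
      have hyY : y ∈ Y := hX2 (mem_singleton_self y)
      have hyS : y ∈ S := hYS y hyY
      have hxy : x ≠ y := by rintro rfl; exact hxY hyY
      obtain ⟨q, hqY, hyq⟩ := hcov2 y (mem_singleton_self y)
      have hqY' : q ∈ Y := (mem_sdiff.1 hqY).1
      have hqy : q ≠ y := fun h => (mem_sdiff.1 hqY).2 (by rw [h]; exact mem_singleton_self y)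
      have hyu : ∀ a ∈ Y, G.Adj y a → a = q := by
        intro a ha hya
        have hay : a ≠ y := by rintro rfl; exact G.loopless.irrefl _ hya
        refine hm2 y hyY a ha q hqY' hya hyq ?_ ?_
        · simp [hay]
        · simp [hqy]
      by_cases hpy : p = y
      · -- the path `x y q`
        subst hpy
        have hT : ({x, p} : Finset V) ⊆ S := by
          intro a ha
          rw [mem_insert, mem_singleton] at ha
          rcases ha with rfl | rfl
          · exact hxS
          · exact hpS
        have hcrT : ∀ a ∈ ({x, p} : Finset V), ∀ b ∈ S, b ∉ ({x, p} : Finset V) → G.Adj a b →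
            a = p ∧ b = q := by
          intro a ha b hb hb2 hab
          rw [mem_insert, mem_singleton] at ha hb2
          push Not at hb2
          rcases ha with rfl | rfl
          · exact absurd (hxu b hb hab) hb2.2
          · exact ⟨rfl, hyu b (hSY b hb hb2.1) hab⟩
        have hmT : MC G S {x, p} := by
          intro a ha b hb c hc hab hac h1 h2
          by_cases haT : a ∈ ({x, p} : Finset V)
          · rw [(hcrT a haT b hb (h1.1 haT) hab).2, (hcrT a haT c hc (h2.1 haT) hac).2]
          · have hbT : b ∈ ({x, p} : Finset V) := by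
              by_contra h; exact haT (h1.2 h)
            have hcT : c ∈ ({x, p} : Finset V) := by
              by_contra h; exact haT (h2.2 h)
            rw [(hcrT b hbT a ha haT hab.symm).1, (hcrT c hcT a ha haT hac.symm).1]
        rcases hsc.cover hT hmT with h | h
        · obtain ⟨b, hb, hxb⟩ := h x (by simp)
          rw [mem_sdiff] at hb
          have := hcrT x (by simp) b hb.1 hb.2 hxb
          exact hxy this.1
        · -- `S = {x, p, q}`
          have hSc : S.card ≤ 3 := by
            have hsub : S ⊆ {x, p, q} := by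
              intro a ha
              by_cases haT : a ∈ ({x, p} : Finset V)
              · rw [mem_insert, mem_singleton] at haT
                rcases haT with rfl | rfl <;> simp
              · obtain ⟨b, hb, hab⟩ := h a (mem_sdiff.2 ⟨ha, haT⟩)
                rw [(hcrT b hb a ha haT hab.symm).2]
                simp
            exact (card_le_card hsub).trans card_le_three
          have hqx : q ≠ x := by rintro rfl; exact hxY hqY'
          have := hsc.complete (by omega) hxS (hYS q hqY') hqx.symm
          exact hqy (hxu q (hYS q hqY') this)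
      · refine hsc.leaves hk hxS hyS hxy hxp hyq hxu ?_ hpy
        intro a ha hya
        have hax : a ≠ x := by
          rintro rfl
          exact hpy (hxu y hyS hya.symm).symm
        exact hyu a (hSY a ha hax) hya
    · have hcard2 : X2.card = 2 := by omega
      by_cases hpX2 : p ∈ X2
      · -- the path `x a b`
        have hT : insert x X2 ⊆ S := by
          intro a ha
          rw [mem_insert] at ha
          rcases ha with rfl | ha
          · exact hxS
          · exact hX2S ha
        have hside : ∀ a b, a ∈ S → b ∈ S → G.Adj a b → (a ∈ insert x X2 ↔ b ∉ insert x X2) →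
            a ∈ Y ∧ b ∈ Y ∧ (a ∈ X2 ↔ b ∉ X2) := by
          intro a b ha hb hab h1
          have hax : a ≠ x := by
            rintro rfl
            have := hxu b hb hab
            subst this
            exact (h1.1 (mem_insert_self _ _)) (mem_insert_of_mem hpX2)
          have hbx : b ≠ x := by
            rintro rfl
            have := hxu a ha hab.symm
            subst this
            exact (h1.1 (mem_insert_of_mem hpX2)) (mem_insert_self _ _)
          refine ⟨hSY a ha hax, hSY b hb hbx, ?_⟩
          rw [mem_insert, mem_insert] at h1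
          tauto
        have hmT : MC G S (insert x X2) := by
          intro a ha b hb c hc hab hac h1 h2
          obtain ⟨h3, h4, h5⟩ := hside a b ha hb hab h1
          obtain ⟨_, h6, h7⟩ := hside a c ha hc hac h2
          exact hm2 a h3 b h4 c h6 hab hac h5 h7
        have scT := hsc.side hT hmT
        have hTc : (insert x X2).card = 3 := by
          rw [card_insert_of_notMem hxX2, hcard2]
        have : ∀ a ∈ X2, a = p := by
          intro a ha
          refine hxu a (hX2S ha) (scT.complete (by omega) (mem_insert_self _ _)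
            (mem_insert_of_mem ha) ?_)
          rintro rfl
          exact hxX2 ha
        have : X2 ⊆ {p} := fun a ha => by rw [this a ha]; exact mem_singleton_self p
        have := card_le_card this
        rw [card_singleton] at this
        omega
      · -- remove `X2` from the whole graph
        have hside : ∀ a b, a ∈ S → b ∈ S → G.Adj a b → (a ∈ X2 ↔ b ∉ X2) → a ∈ Y ∧ b ∈ Y := by
          intro a b ha hb hab h1
          have hax : a ≠ x := by
            rintro rfl
            have := hxu b hb hab
            subst this
            exact hxX2 (h1.2 hpX2)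
          have hbx : b ≠ x := by
            rintro rfl
            have := hxu a ha hab.symm
            subst this
            exact hpX2 (h1.2 hxX2)
          exact ⟨hSY a ha hax, hSY b hb hbx⟩
        have hmT : MC G S X2 := by
          intro a ha b hb c hc hab hac h1 h2
          obtain ⟨h3, h4⟩ := hside a b ha hb hab h1
          obtain ⟨_, h6⟩ := hside a c ha hc hac h2
          exact hm2 a h3 b h4 c h6 hab hac h1 h2
        have scR := hsc.side (sdiff_subset (t := X2)) hmT.compl
        have hcardR : (S \ X2).card + X2.card = S.card := card_sdiff_add_card_eq_card hX2S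
        have hYR : Y \ X2 ⊆ S \ X2 := sdiff_subset_sdiff sdiff_subset (le_refl _)
        have hRc : 1 ≤ (S \ X2).card := hY2c.trans (card_le_card hYR)
        have i5 := ih (S \ X2).card (by omega) (S \ X2) rfl hRc scR
        have hsp3 := e2_split (G := G) hX2S
        have hcr3 : X2.card ≤ cr G X2 (S \ X2) := by
          refine cr_ge (fun u hu => ?_)
          obtain ⟨v, hv, huv⟩ := hcov2 u hu
          exact ⟨v, hYR hv, huv⟩
        omega

end Pool.Agent.Helper57.Rs
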