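import Pool.Agent.Helper57.Rs.Cut

/-!
# Rainbow saturation of cycles is hereditary under matching cuts
-/

namespace Pool.Agent.Helper57.Rs

open Finset Classical

variable {V : Type*}

/-- `c` is a proper edge colouring of `G`. -/
def Proper (G : SimpleGraph V) (c : Sym2 V → ℕ) : Prop :=
  ∀ u v w, G.Adj u v → G.Adj u w → v ≠ w → c s(u, v) ≠ c s(u, w)

/-- `p` runs through a rainbow cycle of length `k` of `G`. -/
def RainbowCycle (k : ℕ) (G : SimpleGraph V) (c : Sym2 V → ℕ) (p : ZMod k → V) : Prop :=
  Function.Injective p ∧ (∀ i, G.Adj (p i) (p (i + 1))) ∧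
    Function.Injective (fun i => c s(p i, p (i + 1)))

/-- `G` has a proper edge colouring without a rainbow `C_k`. -/
def RainbowFree (k : ℕ) (G : SimpleGraph V) : Prop :=
  ∃ c : Sym2 V → ℕ, Proper G c ∧ ∀ p, ¬ RainbowCycle k G c p

/-- The subgraph of `G` spanned by `S`, on the same vertex type. -/
def on (G : SimpleGraph V) (S : Set V) : SimpleGraph V where
  Adj u v := G.Adj u v ∧ u ∈ S ∧ v ∈ S
  symm := ⟨fun _ _ h => ⟨h.1.symm, h.2.2, h.2.1⟩⟩
  loopless := ⟨fun _ h => G.loopless.irrefl _ h.1⟩

theorem on_adj (G : SimpleGraph V) (S : Set V) (u v : V) :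
    (on G S).Adj u v ↔ G.Adj u v ∧ u ∈ S ∧ v ∈ S := Iff.rfl

theorem RainbowFree.mono {k : ℕ} {G H : SimpleGraph V} (hGH : ∀ u v, G.Adj u v → H.Adj u v)
    (h : RainbowFree k H) : RainbowFree k G := by
  obtain ⟨c, hc, hp⟩ := h
  refine ⟨c, fun u v w h1 h2 h3 => hc u v w (hGH _ _ h1) (hGH _ _ h2) h3, ?_⟩
  rintro p ⟨h1, h2, h3⟩
  exact hp p ⟨h1, fun i => hGH _ _ (h2 i), h3⟩

/-- A closed walk is on one side of `X`, or crosses the border in both directions. -/
theorem crossing {k : ℕ} [NeZero k] (p : ZMod k → V) (X : Set V) :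
    (∀ i, p i ∈ X) ∨ (∀ i, p i ∉ X) ∨
      ((∃ i, p i ∈ X ∧ p (i + 1) ∉ X) ∧ ∃ j, p j ∉ X ∧ p (j + 1) ∈ X) := by
  by_cases h1 : ∀ i, p i ∈ X
  · exact Or.inl h1
  · by_cases h2 : ∀ i, p i ∉ X
    · exact Or.inr (Or.inl h2)
    · push Not at h1 h2
      obtain ⟨a, ha⟩ := h1
      obtain ⟨b, hb⟩ := h2
      refine Or.inr (Or.inr ⟨?_, ?_⟩)
      · by_contra hno
        push Not at hno
        have : ∀ n : ℕ, p (b + n) ∈ X := by
          intro n
          induction n with
          | zero => simpa using hb
          | succ n ih =>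
            have := hno _ ih
            rw [add_assoc] at this
            push_cast
            exact this
        have h3 := this (a - b).val
        rw [ZMod.natCast_val, ZMod.cast_id', id, add_sub_cancel] at h3
        exact ha h3
      · by_contra hno
        push Not at hno
        have : ∀ n : ℕ, p (a + n) ∉ X := by
          intro n
          induction n with
          | zero => simpa using ha
          | succ n ih =>
            have := hno _ ih
            rw [add_assoc] at this
            push_cast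
            exact this
        have h3 := this (b - a).val
        rw [ZMod.natCast_val, ZMod.cast_id', id, add_sub_cancel] at h3
        exact h3 hb

/-- Gluing along a matching cut. -/
theorem glue {k : ℕ} [NeZero k] (H : SimpleGraph V) (X : Set V)
    (hm : ∀ u v w, H.Adj u v → H.Adj u w → (u ∈ X ↔ v ∉ X) → (u ∈ X ↔ w ∉ X) → v = w)
    (h1 : RainbowFree k (on H X)) (h2 : RainbowFree k (on H Xᶜ)) : RainbowFree k H := by
  obtain ⟨c1, hc1, hp1⟩ := h1
  obtain ⟨c2, hc2, hp2⟩ := h2
  obtain ⟨c, hca, hcb, hcc⟩ : ∃ c : Sym2 V → ℕ,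
      (∀ a b, a ∈ X → b ∈ X → c s(a, b) = c1 s(a, b) + 1) ∧
      (∀ a b, a ∉ X → b ∉ X → c s(a, b) = c2 s(a, b) + 1) ∧
      (∀ a b, (a ∈ X ↔ b ∉ X) → c s(a, b) = 0) := by
    refine ⟨fun e => if ∀ x ∈ e, x ∈ X then c1 e + 1 else if ∀ x ∈ e, x ∉ X then c2 e + 1 else 0,
      ?_, ?_, ?_⟩
    · intro a b ha hb
      simp only [Sym2.mem_iff, forall_eq_or_imp, forall_eq]
      rw [if_pos ⟨ha, hb⟩]
    · intro a b ha hb
      simp only [Sym2.mem_iff, forall_eq_or_imp, forall_eq]
      rw [if_neg (fun h => ha h.1), if_pos ⟨ha, hb⟩]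
    · intro a b hab
      simp only [Sym2.mem_iff, forall_eq_or_imp, forall_eq]
      rw [if_neg (by tauto), if_neg (by tauto)]
  refine ⟨c, ?_, ?_⟩
  · intro u v w huv huw hvw
    by_cases hu : u ∈ X
    · by_cases hv : v ∈ X
      · by_cases hw : w ∈ X
        · rw [hca u v hu hv, hca u w hu hw]
          have := hc1 u v w ⟨huv, hu, hv⟩ ⟨huw, hu, hw⟩ hvw
          omega
        · rw [hca u v hu hv, hcc u w (by tauto)]
          omega
      · by_cases hw : w ∈ X
        · rw [hca u w hu hw, hcc u v (by tauto)]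
          omega
        · exact absurd (hm u v w huv huw (by tauto) (by tauto)) hvw
    · by_cases hv : v ∈ X
      · by_cases hw : w ∈ X
        · exact absurd (hm u v w huv huw (by tauto) (by tauto)) hvw
        · rw [hcb u w hu hw, hcc u v (by tauto)]
          omega
      · by_cases hw : w ∈ X
        · rw [hcb u v hu hv, hcc u w (by tauto)]
          omega
        · rw [hcb u v hu hv, hcb u w hu hw]
          have := hc2 u v w ⟨huv, hu, hv⟩ ⟨huw, hu, hw⟩ hvw
          omega
  · rintro p ⟨hinj, hadj, hrb⟩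
    rcases crossing p X with h | h | ⟨⟨i, hi1, hi2⟩, j, hj1, hj2⟩
    · refine hp1 p ⟨hinj, fun i => ⟨hadj i, h _, h _⟩, ?_⟩
      intro i j hij
      apply hrb
      simp only at hij ⊢
      rw [hca _ _ (h _) (h _), hca _ _ (h _) (h _), hij]
    · refine hp2 p ⟨hinj, fun i => ⟨hadj i, h _, h _⟩, ?_⟩
      intro i j hij
      apply hrb
      simp only at hij ⊢
      rw [hcb _ _ (h _) (h _), hcb _ _ (h _) (h _), hij]
    · have hij : i = j := by
        apply hrb
        simp only
        rw [hcc _ _ (by tauto), hcc _ _ (by tauto)]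
      subst hij
      exact hj1 hi1

/-- A graph all of whose edges lie in a set of fewer than `k` vertices has no `C_k`. -/
theorem free_of_card {k : ℕ} [NeZero k] (H : SimpleGraph V) (T : Finset V) (hT : T.card < k)
    (h : ∀ u v, H.Adj u v → u ∈ T) : RainbowFree k H := by
  obtain ⟨c, hc⟩ : ∃ c : Sym2 V → ℕ, Proper H c := by
    by_cases hV : ∃ e : Sym2 V → ℕ, ∀ u ∈ T, ∀ v ∈ T, ∀ w ∈ T, e s(u, v) = e s(u, w) → v = w
    · obtain ⟨e, he⟩ := hV
      refine ⟨e, fun u v w h1 h2 h3 h4 => h3 ?_⟩
      exact he u (h u v h1) v (h v u h1.symm) w (h w u h2.symm) h4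
    · exfalso
      apply hV
      obtain ⟨g, hg⟩ : ∃ g : Sym2 V → ℕ, Set.InjOn g (T.sym2 : Set (Sym2 V)) := by
        have : Countable (T.sym2 : Set (Sym2 V)) := (T.sym2.finite_toSet).countable
        obtain ⟨g, hg⟩ := exists_injective_nat (T.sym2 : Set (Sym2 V))
        refine ⟨fun e => if he : e ∈ (T.sym2 : Set (Sym2 V)) then g ⟨e, he⟩ else 0, ?_⟩
        intro a ha b hb hab
        simp only [dif_pos ha, dif_pos hb] at hab
        exact congrArg Subtype.val (hg hab)
      refine ⟨g, fun u hu v hv w hw h => ?_⟩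
      have h1 : s(u, v) = s(u, w) := by
        apply hg _ _ h
        · simp [hu, hv]
        · simp [hu, hw]
      rw [Sym2.eq_iff] at h1
      rcases h1 with ⟨_, h1⟩ | ⟨h1, h2⟩
      · exact h1
      · rw [h2, h1]
  refine ⟨c, hc, ?_⟩
  rintro p ⟨hinj, hadj, _⟩
  have : Fintype.card (ZMod k) ≤ T.card := by
    refine Finset.card_le_card_of_injOn (s := Finset.univ) p ?_ ?_
    · intro i _
      exact h _ _ (hadj i)
    · exact fun a _ b _ hab => hinj hab
  rw [ZMod.card] at this
  omega

/-- The graph spanned by `S` is rainbow `C_k`-saturated or complete and rainbow `C_k`-free. -/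
def SC (k : ℕ) (G : SimpleGraph V) (S : Finset V) : Prop :=
  RainbowFree k (on G S) ∧ ∀ u ∈ S, ∀ v ∈ S, u ≠ v → ¬ G.Adj u v →
    ¬ RainbowFree k (on G S ⊔ SimpleGraph.edge u v)

theorem on_mono {k : ℕ} {G : SimpleGraph V} {S X : Finset V} (hX : X ⊆ S)
    (h : RainbowFree k (on G S)) : RainbowFree k (on G X) :=
  RainbowFree.mono (G := on G X) (H := on G S)
    (fun _ _ h => ⟨h.1, hX h.2.1, hX h.2.2⟩) h

theorem edge_cases {a b u v : V} (h : (SimpleGraph.edge u v).Adj a b) :
    (a = u ∧ b = v) ∨ (a = v ∧ b = u) := by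
  rw [SimpleGraph.edge_adj] at h
  rcases h.1 with h | h
  · exact Or.inl ⟨h.1.symm ▸ rfl, h.2.symm ▸ rfl⟩
  · exact Or.inr ⟨h.1.symm ▸ rfl, h.2.symm ▸ rfl⟩

/-- Both sides of a matching cut are saturated or complete. -/
theorem SC.side {k : ℕ} [NeZero k] {G : SimpleGraph V} {S X : Finset V} (h : SC k G S)
    (hX : X ⊆ S) (hm : MC G S X) : SC k G X := by
  refine ⟨on_mono hX h.1, ?_⟩
  intro u hu v hv huv hadj hfree
  refine h.2 u (hX hu) v (hX hv) huv hadj ?_
  have cross : ∀ a b, (on G (S : Set V) ⊔ SimpleGraph.edge u v).Adj a b →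
      (a ∈ (X : Set V) ↔ b ∉ (X : Set V)) → G.Adj a b ∧ a ∈ S ∧ b ∈ S := by
    intro a b hab hside
    rw [SimpleGraph.sup_adj] at hab
    rcases hab with hab | hab
    · exact hab
    · exfalso
      rcases edge_cases hab with ⟨rfl, rfl⟩ | ⟨rfl, rfl⟩
      · exact hside.1 hu hv
      · exact hside.1 hv hu
  refine glue _ (X : Set V) ?_ ?_ ?_
  · intro a b c hab hac h1 h2
    obtain ⟨h3, h4, h5⟩ := cross a b hab h1
    obtain ⟨h6, _, h7⟩ := cross a c hac h2
    exact hm a h4 b h5 c h7 h3 h6 (by simpa using h1) (by simpa using h2)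
  · refine hfree.mono ?_
    rintro a b ⟨hab, ha, hb⟩
    rw [SimpleGraph.sup_adj] at hab ⊢
    rcases hab with hab | hab
    · exact Or.inl ⟨hab.1, ha, hb⟩
    · exact Or.inr hab
  · refine h.1.mono ?_
    rintro a b ⟨hab, ha, hb⟩
    rw [SimpleGraph.sup_adj] at hab
    rcases hab with hab | hab
    · exact hab
    · exfalso
      rcases edge_cases hab with ⟨rfl, rfl⟩ | ⟨rfl, rfl⟩
      · exact ha hu
      · exact ha hv

theorem MC.compl {G : SimpleGraph V} {S X : Finset V} (hm : MC G S X) : MC G S (S \ X) := by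
  intro u hu v hv w hw h1 h2 h3 h4
  refine hm u hu v hv w hw h1 h2 ?_ ?_
  · rw [mem_sdiff, mem_sdiff] at h3; tauto
  · rw [mem_sdiff, mem_sdiff] at h4; tauto

/-- One side of every matching cut is completely covered. -/
theorem SC.cover {k : ℕ} [NeZero k] {G : SimpleGraph V} {S X : Finset V} (h : SC k G S)
    (hX : X ⊆ S) (hm : MC G S X) :
    (∀ u ∈ X, ∃ v ∈ S \ X, G.Adj u v) ∨ (∀ v ∈ S \ X, ∃ u ∈ X, G.Adj v u) := by
  by_contra hno
  push Not at hno
  obtain ⟨⟨u, hu, hu2⟩, v, hv, hv2⟩ := hno
  have hv' := mem_sdiff.1 hv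
  have huv : u ≠ v := by rintro rfl; exact hv'.2 hu
  refine h.2 u (hX hu) v hv'.1 huv (hu2 v hv) ?_
  refine glue _ (X : Set V) ?_ ?_ ?_
  · -- a crossing edge at `u` or `v` is the new one
    have c1 : ∀ a b, (on G (S : Set V) ⊔ SimpleGraph.edge u v).Adj a b →
        (a ∈ (X : Set V) ↔ b ∉ (X : Set V)) → (G.Adj a b ∧ a ∈ S ∧ b ∈ S ∧ a ≠ u ∧ a ≠ v) ∨
          (a = u ∧ b = v) ∨ (a = v ∧ b = u) := by
      intro a b hab hside
      rw [SimpleGraph.sup_adj] at hab
      rcases hab with hab | hab
      · refine Or.inl ⟨hab.1, hab.2.1, hab.2.2, ?_, ?_⟩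
        · rintro rfl
          exact hu2 b (mem_sdiff.2 ⟨hab.2.2, by simpa using hside.1 hu⟩) hab.1
        · rintro rfl
          have : b ∈ X := by
            by_contra hb
            exact hv'.2 (hside.2 hb)
          exact hv2 b this hab.1
      · exact Or.inr (edge_cases hab)
    intro a b c hab hac h1 h2
    rcases c1 a b hab h1 with ⟨h3, h4, h5, h6, h7⟩ | ⟨rfl, rfl⟩ | ⟨rfl, rfl⟩
    · rcases c1 a c hac h2 with ⟨h8, _, h9, _, _⟩ | ⟨rfl, rfl⟩ | ⟨rfl, rfl⟩
      · exact hm a h4 b h5 c h9 h3 h8 (by simpa using h1) (by simpa using h2)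
      · exact absurd rfl h6
      · exact absurd rfl h7
    · rcases c1 a c hac h2 with ⟨_, _, _, h6, _⟩ | ⟨_, rfl⟩ | ⟨h8, _⟩
      · exact absurd rfl h6
      · rfl
      · exact absurd h8 huv
    · rcases c1 a c hac h2 with ⟨_, _, _, _, h7⟩ | ⟨h8, _⟩ | ⟨_, rfl⟩
      · exact absurd rfl h7
      · exact absurd h8.symm huv
      · rfl
  · refine h.1.mono ?_
    rintro a b ⟨hab, ha, hb⟩
    rw [SimpleGraph.sup_adj] at hab
    rcases hab with hab | hab
    · exact hab
    · exfalso
      rcases edge_cases hab with ⟨rfl, rfl⟩ | ⟨rfl, rfl⟩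
      · exact hv'.2 hb
      · exact hv'.2 ha
  · refine h.1.mono ?_
    rintro a b ⟨hab, ha, hb⟩
    rw [SimpleGraph.sup_adj] at hab
    rcases hab with hab | hab
    · exact hab
    · exfalso
      rcases edge_cases hab with ⟨rfl, rfl⟩ | ⟨rfl, rfl⟩
      · exact ha hu
      · exact hb hu

/-- Fewer than `k` vertices: complete. -/
theorem SC.complete {k : ℕ} [NeZero k] {G : SimpleGraph V} {S : Finset V} (h : SC k G S)
    (hS : S.card < k) {u v : V} (hu : u ∈ S) (hv : v ∈ S) (huv : u ≠ v) : G.Adj u v := by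
  by_contra hno
  refine h.2 u hu v hv huv hno (free_of_card _ S hS ?_)
  intro a b hab
  rw [SimpleGraph.sup_adj] at hab
  rcases hab with hab | hab
  · exact hab.2.1
  · rcases edge_cases hab with ⟨rfl, rfl⟩ | ⟨rfl, rfl⟩
    · exact hu
    · exact hv

/-- Two vertices of degree one do not exist. -/
theorem SC.leaves {k : ℕ} [NeZero k] (hk : 4 ≤ k) {G : SimpleGraph V} {S : Finset V}
    (h : SC k G S) {x y p q : V} (hx : x ∈ S) (hy : y ∈ S) (hxy : x ≠ y)
    (hxp' : G.Adj x p) (hyq' : G.Adj y q)
    (hxp : ∀ a ∈ S, G.Adj x a → a = p) (hyq : ∀ a ∈ S, G.Adj y a → a = q) (hpy : p ≠ y) :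
    False := by
  have hadj : ¬ G.Adj x y := fun h => hpy (hxp y hy h).symm
  refine h.2 x hx y hy hxy hadj ?_
  by_cases hpq : p = q
  · -- the new edge is in no cycle of length `k`
    subst hpq
    obtain ⟨c, hc, hp⟩ := h.1
    have hH : ∀ a b, (on G (S : Set V) ⊔ SimpleGraph.edge x y).Adj a b →
        (on G (S : Set V)).Adj a b ∨ (a = x ∧ b = y) ∨ (a = y ∧ b = x) := by
      intro a b hab
      rw [SimpleGraph.sup_adj] at hab
      rcases hab with hab | hab
      · exact Or.inl hab
      · exact Or.inr (edge_cases hab)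
    have hxn : ∀ b, (on G (S : Set V) ⊔ SimpleGraph.edge x y).Adj x b → b = p ∨ b = y := by
      intro b hb
      rcases hH x b hb with h | h | h
      · exact Or.inl (hxp b h.2.2 h.1)
      · exact Or.inr h.2
      · exact absurd h.1 hxy
    have hyn : ∀ b, (on G (S : Set V) ⊔ SimpleGraph.edge x y).Adj y b → b = p ∨ b = x := by
      intro b hb
      rcases hH y b hb with h | h | h
      · exact Or.inl (hyq b h.2.2 h.1)
      · exact absurd h.1.symm hxy
      · exact Or.inr h.2
    have h3 : (3 : ZMod k) ≠ 0 := by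
      intro h
      have h1 : ((3 : ℕ) : ZMod k) = 0 := by exact_mod_cast h
      rw [ZMod.natCast_eq_zero_iff] at h1
      have := Nat.le_of_dvd (by norm_num) h1
      omega
    have h2 : (2 : ZMod k) ≠ 0 := by
      intro h
      have h1 : ((2 : ℕ) : ZMod k) = 0 := by exact_mod_cast h
      rw [ZMod.natCast_eq_zero_iff] at h1
      have := Nat.le_of_dvd (by norm_num) h1
      omega
    refine ⟨fun e => if e = s(x, y) then 0 else c e + 1, ?_, ?_⟩
    · intro u v w huv huw hvw
      simp only
      have hne : ∀ a b, a ≠ b → ¬ (s(u, a) = s(x, y) ∧ s(u, b) = s(x, y)) := by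
        rintro a b hab ⟨h1, h2⟩
        have h3 : s(u, a) = s(u, b) := h1.trans h2.symm
        rw [Sym2.eq_iff] at h3
        rcases h3 with ⟨_, h3⟩ | ⟨h3, h4⟩
        · exact hab h3
        · exact hab (h4.trans h3)
      by_cases h4 : s(u, v) = s(x, y)
      · have h5 : s(u, w) ≠ s(x, y) := fun h => hne v w hvw ⟨h4, h⟩
        rw [if_pos h4, if_neg h5]
        omega
      · by_cases h5 : s(u, w) = s(x, y)
        · rw [if_neg h4, if_pos h5]
          omega
        · rw [if_neg h4, if_neg h5]
          have huv' : (on G (S : Set V)).Adj u v := by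
            rcases hH u v huv with h | h | h
            · exact h
            · exact absurd (by rw [h.1, h.2]) h4
            · exact absurd (by rw [h.1, h.2, Sym2.eq_swap]) h4
          have huw' : (on G (S : Set V)).Adj u w := by
            rcases hH u w huw with h | h | h
            · exact h
            · exact absurd (by rw [h.1, h.2]) h5
            · exact absurd (by rw [h.1, h.2, Sym2.eq_swap]) h5
          have := hc u v w huv' huw' hvw
          omega
    · rintro r ⟨hinj, hadj', hrb⟩
      -- no vertex of the cycle is followed by the other end of the new edge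
      have key : ∀ i, ¬ (r i = x ∧ r (i + 1) = y) := by
        rintro i ⟨h1, h4⟩
        have h5 := hyn (r (i + 1 + 1)) (by
          have := hadj' (i + 1)
          rw [h4] at this
          exact this)
        have h6 := hxn (r (i - 1)) (by
          have := hadj' (i - 1)
          rw [sub_add_cancel, h1] at this
          exact this.symm)
        have h7 : r (i + 1 + 1) ≠ x := by
          rw [← h1]
          intro h
          have := hinj h
          apply h2
          have h8 : i + 1 + 1 - i = 0 := by rw [this, sub_self]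
          rw [← h8]; ring
        have h8 : r (i - 1) ≠ y := by
          rw [← h4]
          intro h
          have := hinj h
          apply h2
          have h9 : i + 1 - (i - 1) = 0 := by rw [← this, sub_self]
          rw [← h9]; ring
        have h9 : r (i + 1 + 1) = r (i - 1) := by
          rcases h5 with h5 | h5
          · rcases h6 with h6 | h6
            · rw [h5, h6]
            · exact absurd h6 h8
          · exact absurd h5 h7
        have := hinj h9
        apply h3
        have h10 : i + 1 + 1 - (i - 1) = 0 := by rw [this, sub_self]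
        rw [← h10]; ring
      have key2 : ∀ i, ¬ (r i = y ∧ r (i + 1) = x) := by
        rintro i ⟨h1, h4⟩
        have h5 := hxn (r (i + 1 + 1)) (by
          have := hadj' (i + 1)
          rw [h4] at this
          exact this)
        have h6 := hyn (r (i - 1)) (by
          have := hadj' (i - 1)
          rw [sub_add_cancel, h1] at this
          exact this.symm)
        have h7 : r (i + 1 + 1) ≠ y := by
          rw [← h1]
          intro h
          have := hinj h
          apply h2
          have h8 : i + 1 + 1 - i = 0 := by rw [this, sub_self]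
          rw [← h8]; ring
        have h8 : r (i - 1) ≠ x := by
          rw [← h4]
          intro h
          have := hinj h
          apply h2
          have h9 : i + 1 - (i - 1) = 0 := by rw [← this, sub_self]
          rw [← h9]; ring
        have h9 : r (i + 1 + 1) = r (i - 1) := by
          rcases h5 with h5 | h5
          · rcases h6 with h6 | h6
            · rw [h5, h6]
            · exact absurd h6 h8
          · exact absurd h5 h7
        have := hinj h9
        apply h3
        have h10 : i + 1 + 1 - (i - 1) = 0 := by rw [this, sub_self]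
        rw [← h10]; ring
      have hold : ∀ i, (on G (S : Set V)).Adj (r i) (r (i + 1)) := by
        intro i
        rcases hH _ _ (hadj' i) with h | h | h
        · exact h
        · exact absurd h (key i)
        · exact absurd h (key2 i)
      have hcol : ∀ i, s(r i, r (i + 1)) ≠ s(x, y) := by
        intro i h
        rw [Sym2.eq_iff] at h
        rcases h with h | h
        · exact key i h
        · exact key2 i h
      refine hp r ⟨hinj, hold, ?_⟩
      intro i j hij
      apply hrb
      simp only at hij ⊢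
      rw [if_neg (hcol i), if_neg (hcol j), hij]
  · -- the two pendant edges and the new edge
    have c1 : ∀ a b, (on G (S : Set V) ⊔ SimpleGraph.edge x y).Adj a b →
        (a ∈ ({x, y} : Set V) ↔ b ∉ ({x, y} : Set V)) →
          (a = x ∧ b = p) ∨ (a = y ∧ b = q) ∨ (a = p ∧ b = x) ∨ (a = q ∧ b = y) := by
      intro a b hab hside
      rw [SimpleGraph.sup_adj] at hab
      rcases hab with hab | hab
      · by_cases ha : a ∈ ({x, y} : Set V)
        · rcases ha with rfl | ha
          · exact Or.inl ⟨rfl, hxp b hab.2.2 hab.1⟩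
          · rw [Set.mem_singleton_iff] at ha
            subst ha
            exact Or.inr (Or.inl ⟨rfl, hyq b hab.2.2 hab.1⟩)
        · have hb : b ∈ ({x, y} : Set V) := by
            by_contra hb
            exact ha (hside.2 hb)
          rcases hb with rfl | hb
          · exact Or.inr (Or.inr (Or.inl ⟨hxp a hab.2.1 hab.1.symm, rfl⟩))
          · rw [Set.mem_singleton_iff] at hb
            subst hb
            exact Or.inr (Or.inr (Or.inr ⟨hyq a hab.2.1 hab.1.symm, rfl⟩))
      · exfalso
        rcases edge_cases hab with ⟨rfl, rfl⟩ | ⟨rfl, rfl⟩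
        · exact hside.1 (by simp) (by simp)
        · exact hside.1 (by simp) (by simp)
    have hpx : p ≠ x := fun h => G.loopless.irrefl x (by rw [h] at hxp'; exact hxp')
    have hqy : q ≠ y := fun h => G.loopless.irrefl y (by rw [h] at hyq'; exact hyq')
    have hqx : q ≠ x := by
      rintro rfl
      exact hadj hyq'.symm
    refine glue _ ({x, y} : Set V) ?_ ?_ ?_
    · intro a b c hab hac h1 h2
      rcases c1 a b hab h1 with ⟨h3, h4⟩ | ⟨h3, h4⟩ | ⟨h3, h4⟩ | ⟨h3, h4⟩ <;>
        rcases c1 a c hac h2 with ⟨h5, h6⟩ | ⟨h5, h6⟩ | ⟨h5, h6⟩ | ⟨h5, h6⟩ <;>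
        first
          | exact h4.trans h6.symm
          | exact absurd (h3.symm.trans h5) (by assumption)
          | exact absurd (h5.symm.trans h3) (by assumption)
    · refine free_of_card _ {x, y} ?_ ?_
      · exact lt_of_le_of_lt (card_le_two) (by omega)
      · rintro a b ⟨_, ha, _⟩
        simpa using ha
    · refine h.1.mono ?_
      rintro a b ⟨hab, ha, hb⟩
      rw [SimpleGraph.sup_adj] at hab
      rcases hab with hab | hab
      · exact hab
      · exfalso
        rcases edge_cases hab with ⟨rfl, rfl⟩ | ⟨rfl, rfl⟩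
        · exact ha (by simp)
        · exact ha (by simp)

end Pool.Agent.Helper57.Rs
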